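import Mathlib

set_option autoImplicit false

open CategoryTheory Limits

/-!
# `Tor` against the residue ring, from a minimal free resolution
-/

namespace Pool.Agent.R688.BT

variable {S : Type} [CommRing S] (h : ℕ → ℕ)
  (D : ∀ i : ℕ, (Fin (h (i + 1)) → S) →ₗ[S] (Fin (h i) → S))

section

variable (hex : ∀ i, LinearMap.range (D (i + 1)) = LinearMap.ker (D i))

include hex in
theorem DD_zero (i : ℕ) : (D i).comp (D (i + 1)) = 0 := by
  apply LinearMap.ext
  intro v
  have : D (i + 1) v ∈ LinearMap.ker (D i) := by rw [← hex i]; exact ⟨v, rfl⟩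
  exact this

/-- the complex of free modules -/
noncomputable def Cx : ChainComplex (ModuleCat.{0} S) ℕ :=
  ChainComplex.of (fun i => ModuleCat.of S (Fin (h i) → S))
    (fun i => ModuleCat.ofHom (D i))
    (fun i => by
      rw [← ModuleCat.ofHom_comp, DD_zero h D hex]
      rfl)

theorem Cx_X (i : ℕ) : (Cx h D hex).X i = ModuleCat.of S (Fin (h i) → S) := rfl

theorem Cx_d (i : ℕ) : (Cx h D hex).d (i + 1) i = ModuleCat.ofHom (D i) := by
  exact ChainComplex.of_d (V := ModuleCat.{0} S)
    (fun i => ModuleCat.of S (Fin (h i) → S))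
    (fun i => ModuleCat.ofHom (D i)) i

variable {M : Type} [AddCommGroup M] [Module S M] (π : (Fin (h 0) → S) →ₗ[S] M)
  (hπ : Function.Surjective π) (hker : LinearMap.range (D 0) = LinearMap.ker π)

include hker in
theorem aug_comp : ModuleCat.ofHom (D 0) ≫ ModuleCat.ofHom π = 0 := by
  rw [← ModuleCat.ofHom_comp]
  have h2 : π.comp (D 0) = 0 := by
    apply LinearMap.ext
    intro u
    have : D 0 u ∈ LinearMap.ker π := by
      rw [← hker]; exact ⟨u, rfl⟩
    exact this
  rw [h2]
  rfl

/-- the augmentation as a chain map -/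
noncomputable def Cpi :
    Cx h D hex ⟶ (ChainComplex.single₀ (ModuleCat.{0} S)).obj (ModuleCat.of S M) :=
  (ChainComplex.toSingle₀Equiv _ _).symm ⟨ModuleCat.ofHom π,
    (congrArg (fun t => t ≫ ModuleCat.ofHom π) (Cx_d h D hex 0)).trans (aug_comp h D π hker)⟩

theorem Cx_exactAt (n : ℕ) : (Cx h D hex).ExactAt (n + 1) := by
  rw [HomologicalComplex.exactAt_iff' _ (n + 1 + 1) (n + 1) n (by simp) (by simp)]
  rw [ShortComplex.moduleCat_exact_iff_range_eq_ker]
  have h1 : ((Cx h D hex).sc' (n + 1 + 1) (n + 1) n).f = ModuleCat.ofHom (D (n + 1)) :=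
    Cx_d h D hex (n + 1)
  have h2 : ((Cx h D hex).sc' (n + 1 + 1) (n + 1) n).g = ModuleCat.ofHom (D n) :=
    Cx_d h D hex n
  rw [h1, h2]
  exact hex n

/-- the projective resolution -/
noncomputable def res : ProjectiveResolution (ModuleCat.of S M) where
  complex := Cx h D hex
  projective := fun n => by
    rw [Cx_X]
    infer_instance
  π := Cpi h D hex π hker
  quasiIso := ⟨fun n => by
    cases n
    · rw [ChainComplex.quasiIsoAt₀_iff, ShortComplex.quasiIso_iff_of_zeros']
      · constructor
        · rw [ShortComplex.moduleCat_exact_iff_range_eq_ker]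
          have h1 : (Cx h D hex).d 1 0 = ModuleCat.ofHom (D 0) := Cx_d h D hex 0
          have h2 : (Cpi h D hex π hker).f 0 = ModuleCat.ofHom π :=
            ChainComplex.toSingle₀Equiv_symm_apply_f_zero _ _
          change LinearMap.range ((Cx h D hex).d 1 0).hom =
            LinearMap.ker ((Cpi h D hex π hker).f 0).hom
          rw [h1, h2]
          exact hker
        · have h2 : (Cpi h D hex π hker).f 0 = ModuleCat.ofHom π :=
            ChainComplex.toSingle₀Equiv_symm_apply_f_zero _ _
          change Epi ((Cpi h D hex π hker).f 0)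
          rw [h2]
          exact (ModuleCat.epi_iff_surjective _).2 hπ
      all_goals rfl
    · rw [quasiIsoAt_iff_exactAt']
      · exact Cx_exactAt h D hex _
      · apply ChainComplex.exactAt_succ_single_obj⟩

end

section tensor

open TensorProduct MonoidalCategory

variable (J : Ideal S) (hmin : ∀ i x y, D i (Pi.single x 1) y ∈ J)

include hmin in
theorem rTensor_zero (i : ℕ) : (D i).rTensor (S ⧸ J) = 0 := by
  apply TensorProduct.ext'
  intro u q
  rw [LinearMap.rTensor_tmul, LinearMap.zero_apply]
  have h1 : ∀ y, D i u y ∈ J := by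
    intro y
    have h2 : u = ∑ x, u x • (Pi.single x 1 : Fin (h (i + 1)) → S) := by
      funext z
      rw [Finset.sum_apply]
      simp [Pi.single_apply]
    rw [h2, map_sum, Finset.sum_apply]
    refine Ideal.sum_mem _ fun x _ => ?_
    rw [map_smul, Pi.smul_apply, smul_eq_mul]
    exact J.mul_mem_left _ (hmin i x y)
  have h3 : D i u = ∑ y, D i u y • (Pi.single y 1 : Fin (h i) → S) := by
    funext z
    rw [Finset.sum_apply]
    simp [Pi.single_apply]
  rw [h3, TensorProduct.sum_tmul]
  refine Finset.sum_eq_zero fun y _ => ?_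
  rw [TensorProduct.smul_tmul]
  have h4 : D i u y • q = 0 := by
    obtain ⟨q, rfl⟩ := Ideal.Quotient.mk_surjective q
    have h5 : D i u y • Ideal.Quotient.mk J q = Ideal.Quotient.mk J (D i u y * q) := rfl
    rw [h5, Ideal.Quotient.eq_zero_iff_mem]
    exact J.mul_mem_right _ (h1 y)
  rw [h4, TensorProduct.tmul_zero]

theorem length_tensor (n : ℕ) :
    Module.length S ((Fin n → S) ⊗[S] (S ⧸ J)) = n * Module.length S (S ⧸ J) := by
  have e1 : ((Fin n → S) ⊗[S] (S ⧸ J)) ≃ₗ[S] (Fin n → (S ⧸ J)) :=
    (TensorProduct.comm S (Fin n → S) (S ⧸ J)).trans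
      (TensorProduct.piScalarRight S S (S ⧸ J) (Fin n))
  rw [e1.length_eq, Module.length_pi, ENat.card_eq_coe_fintype_card, Fintype.card_fin]

variable (hex : ∀ i, LinearMap.range (D (i + 1)) = LinearMap.ker (D i))
  {M : Type} [AddCommGroup M] [Module S M] (π : (Fin (h 0) → S) →ₗ[S] M)
  (hπ : Function.Surjective π) (hker : LinearMap.range (D 0) = LinearMap.ker π)

include hex hπ hker hmin in
theorem length_tor (i : ℕ) :
    Module.length S (((Tor' (ModuleCat.{0} S) i).obj (ModuleCat.of S M)).obj
      (ModuleCat.of S (S ⧸ J))) = h i * Module.length S (S ⧸ J) := by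
  have e1 := (res h D hex π hπ hker).isoLeftDerivedObj
    ((tensoringRight (ModuleCat.{0} S)).obj (ModuleCat.of S (S ⧸ J))) i
  have e2 := e1.toLinearEquiv.length_eq
  refine (e2 : _ = _).trans ?_
  set K' := (((tensoringRight (ModuleCat.{0} S)).obj
    (ModuleCat.of S (S ⧸ J))).mapHomologicalComplex (ComplexShape.down ℕ)).obj
      (Cx h D hex) with hK'
  change Module.length S (K'.homology i) = _
  have hd0 : ∀ n, K'.d (n + 1) n = 0 := by
    intro n
    change (Cx h D hex).d (n + 1) n ▷ (ModuleCat.of S (S ⧸ J)) = _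
    rw [Cx_d]
    apply ModuleCat.hom_ext
    exact rTensor_zero h D J hmin n
  have hd : ∀ a b, K'.d a b = 0 := by
    intro a b
    by_cases hab : b + 1 = a
    · subst hab
      exact hd0 b
    · exact K'.shape _ _ hab
  have e3 : K'.homology i ≅ K'.X i :=
    (ShortComplex.HomologyData.ofZeros (K'.sc i) (hd _ _) (hd _ _)).left.homologyIso
  rw [e3.toLinearEquiv.length_eq]
  exact length_tensor J (h i)

end tensor

end Pool.Agent.R688.BT
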