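import Pool.Agent.Helper816.Final1987
import Pool.Agent.R688.BT.TorRes

set_option autoImplicit false

open Finset MvPolynomial

/-!
# Betti numbers of numerical semigroup rings from ranks of scalar matrices
-/

namespace Pool.Agent.R688.BT

open Pool.Agent.Helper816 Pool.Agent.Helper816.Count Pool.Agent.Helper816.Koszul
  Pool.Agent.Helper816.Phi Pool.Agent.Helper816.Reso Pool.Agent.Helper816.Minimalize
  Pool.Agent.Helper816.Cst Pool.Agent.Helper816.Rank Pool.Agent.Helper816.Aring
  Pool.Agent.Helper816.Final1987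

/-- the minimal resolution of a numerical semigroup ring, with its ranks -/
theorem minres (k : Type) [Field k] (n : ℕ) (g : Fin (n + 1) → ℕ) (hpos : ∀ i, 0 < g i)
    (Ap : Finset ℕ) (hAp : ∀ n, n ∈ Ap ↔ Mem g n ∧ ¬ Adj g n 0 0) :
    ∃ (h : ℕ → ℕ)
      (D' : ∀ i, (Fin (h (i + 1)) → MvPolynomial (Fin (n+1)) k) →ₗ[MvPolynomial (Fin (n+1)) k]
        (Fin (h i) → MvPolynomial (Fin (n+1)) k)),
      h 0 = 1 ∧
      (∀ v, v ∈ LinearMap.range (D' 0) ↔ ∀ a, v a ∈ RingHom.ker
          (MvPolynomial.aeval (fun i : Fin (n+1) => (Polynomial.X : Polynomial k) ^ g i))) ∧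
      (∀ i, LinearMap.range (D' (i + 1)) = LinearMap.ker (D' i)) ∧
      (∀ i x y, constantCoeff (D' i (Pi.single x 1) y) = 0) ∧
      (∀ i, h (i + 1) + Module.finrank k (LinearMap.range (cst (DD k g Ap i))) +
        Module.finrank k (LinearMap.range (cst (DD k g Ap (i + 1)))) =
        Fintype.card (XX n Ap (i + 1))) := by
  classical
  have h0 := hpos 0
  have h0Ap : 0 ∈ Ap := by
    rw [hAp]
    exact ⟨mem_zero, not_adj_zero hpos _ _⟩
  obtain ⟨h, x0, D', hinj, hex, hD'min, hr0, hr, hz1, hz2, hz3⟩ :=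
    minimalize (k := k) g hpos (XX n Ap) (dg g Ap) (DD k g Ap)
      (fun i x y a ha => homog k i x y a ha) (DD_exact k hAp h0)
  -- the distinguished basis element
  set z : XX n Ap 0 := (⟨0, h0Ap⟩, ⟨∅, Finset.card_empty⟩) with hz
  have hx0 : ∀ j, x0 j = z := by
    intro j
    by_contra hne
    apply hz3 j
    apply single_range k hAp
    intro h1
    apply hne
    rw [hz]
    apply Prod.ext
    · exact Subtype.ext h1
    · exact Subtype.ext (Finset.card_eq_zero.1 (x0 j).2.2)
  -- membership in the image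
  have hmem : ∀ p : MvPolynomial (Fin (n + 1)) k,
      (p • (Pi.single z 1 : XX n Ap 0 → MvPolynomial (Fin (n + 1)) k)) ∈
        LinearMap.range (DD k g Ap 0) ↔
      aeval (R := k) (fun i : Fin (n + 1) => (Polynomial.X : Polynomial k) ^ g i) p = 0 := by
    intro p
    rw [Reso.DD_zero k hAp h0, ← Reg.th_mem k (g := g)]
    have h1 : (fun a : Ap => (p • (Pi.single z 1 : XX n Ap 0 → MvPolynomial (Fin (n + 1)) k))
        (a, ⟨∅, Finset.card_empty⟩)) = Pi.single ⟨0, h0Ap⟩ p := by
      funext a
      by_cases ha : a = ⟨0, h0Ap⟩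
      · rw [ha, Pi.single_eq_same, Pi.smul_apply, smul_eq_mul, hz, Pi.single_eq_same, mul_one]
      · rw [Pi.single_eq_of_ne ha, Pi.smul_apply, smul_eq_mul, Pi.single_eq_of_ne, mul_zero]
        rw [hz]
        intro h5
        simp only [Prod.mk.injEq] at h5
        exact ha h5.1
    rw [h1, phi_single]
    have h2 : ta k hAp ⟨0, h0Ap⟩ = 1 := by
      unfold ta
      have h3 : tt k (g := g) 0 ((hAp 0).1 h0Ap).1 = 1 := by
        apply Subtype.ext
        show (Polynomial.X : Polynomial k) ^ 0 = 1
        rw [pow_zero]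
      rw [h3, C_1]
    rw [h2, mul_one]
  -- there is exactly one basis element in degree zero
  have hh0 : ∃ j0 : Fin (h 0), ∀ j, j = j0 := by
    by_contra hcon
    have hemp : IsEmpty (Fin (h 0)) := by
      constructor
      intro j0
      apply hcon
      refine ⟨j0, fun j => hinj ?_⟩
      rw [hx0, hx0]
    obtain ⟨v, hv⟩ := hz2 (Pi.single z 1)
    have h1 : incl x0 v = 0 := by
      unfold incl
      exact Finset.sum_of_isEmpty _
    rw [h1, sub_zero] at hv
    have h2 := (hmem 1).1 (by rw [one_smul]; exact hv)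
    rw [map_one] at h2
    exact one_ne_zero h2
  obtain ⟨j0, hj0⟩ := hh0
  have hincl : ∀ v : Fin (h 0) → MvPolynomial (Fin (n + 1)) k, incl x0 v =
      v j0 • (Pi.single z 1 : XX n Ap 0 → MvPolynomial (Fin (n + 1)) k) := by
    intro v
    unfold incl
    rw [Finset.sum_eq_single j0]
    · rw [hx0]
    · intro j _ hj
      exact absurd (hj0 j) hj
    · intro h5
      exact absurd (Finset.mem_univ _) h5
  refine ⟨h, D', ?_, ?_, hex, hD'min, hr⟩
  · have h1 : Fintype.card (Fin (h 0)) = 1 := Fintype.card_eq_one_iff.mpr ⟨j0, hj0⟩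
    simpa using h1
  · intro v
    rw [hz1, hincl, hmem]
    constructor
    · intro h1 a
      rw [hj0 a, RingHom.mem_ker]
      exact h1
    · intro h1
      exact h1 j0

/-- constant coefficient zero means membership in the ideal of the variables -/
theorem mem_vars {k : Type} [Field k] {n : ℕ} (f : MvPolynomial (Fin n) k)
    (hf : constantCoeff f = 0) :
    f ∈ Ideal.span (Set.range (X : Fin n → MvPolynomial (Fin n) k)) := by
  have key : ∀ p : MvPolynomial (Fin n) k, p - C (constantCoeff p) ∈
      Ideal.span (Set.range (X : Fin n → MvPolynomial (Fin n) k)) := by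
    intro p
    induction p using MvPolynomial.induction_on with
    | C a => rw [constantCoeff_C, sub_self]; exact zero_mem _
    | add a b ha hb =>
      rw [map_add, C_add, add_sub_add_comm]
      exact add_mem ha hb
    | mul_X a i _ =>
      rw [map_mul, constantCoeff_X, mul_zero, C_0, sub_zero]
      exact Ideal.mul_mem_left _ _ (Ideal.subset_span ⟨i, rfl⟩)
  have := key f
  rw [hf, C_0, sub_zero] at this
  exact this

/-- the residue ring has length one -/
theorem length_res (k : Type) [Field k] (n : ℕ) :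
    Module.length (MvPolynomial (Fin n) k) (MvPolynomial (Fin n) k ⧸
      Ideal.span (Set.range (X : Fin n → MvPolynomial (Fin n) k))) = 1 := by
  rw [Module.length_eq_one_iff, isSimpleModule_iff_isCoatom, ← Ideal.isMaximal_def]
  have h1 : Ideal.span (Set.range (X : Fin n → MvPolynomial (Fin n) k)) =
      RingHom.ker (constantCoeff (R := k) (σ := Fin n)) := by
    apply le_antisymm
    · rw [Ideal.span_le]
      rintro _ ⟨i, rfl⟩
      exact constantCoeff_X k i
    · intro f hf
      exact mem_vars f hf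
  rw [h1]
  exact RingHom.ker_isMaximal_of_surjective _ (fun a => ⟨C a, constantCoeff_C _ a⟩)

/-- the Betti numbers -/
theorem length_tor_semigroup (k : Type) [Field k] (n : ℕ) (g : Fin (n + 1) → ℕ)
    (hpos : ∀ i, 0 < g i)
    (Ap : Finset ℕ) (hAp : ∀ n, n ∈ Ap ↔ Mem g n ∧ ¬ Adj g n 0 0) (i : ℕ) :
    ∃ b : ℕ, Module.length (MvPolynomial (Fin (n+1)) k)
        (((CategoryTheory.Tor' (ModuleCat.{0} (MvPolynomial (Fin (n+1)) k)) (i + 1)).obj
          (ModuleCat.of (MvPolynomial (Fin (n+1)) k)
            (MvPolynomial (Fin (n+1)) k ⧸ RingHom.ker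
              (MvPolynomial.aeval (R := k)
                (fun j : Fin (n+1) => (Polynomial.X : Polynomial k) ^ g j))))).obj
          (ModuleCat.of (MvPolynomial (Fin (n+1)) k)
            (MvPolynomial (Fin (n+1)) k ⧸
              Ideal.span (Set.range (X : Fin (n+1) → MvPolynomial (Fin (n+1)) k))))) = b ∧
      b + Module.finrank k (LinearMap.range (cst (DD k g Ap i))) +
        Module.finrank k (LinearMap.range (cst (DD k g Ap (i + 1)))) =
        Fintype.card (XX n Ap (i + 1)) := by
  obtain ⟨h, D, h0, hr, hex, hmin, hrk⟩ := minres k n g hpos Ap hAp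
  refine ⟨h (i + 1), ?_, hrk i⟩
  set I := RingHom.ker (MvPolynomial.aeval (R := k)
    (fun j : Fin (n+1) => (Polynomial.X : Polynomial k) ^ g j)) with hI
  let π : (Fin (h 0) → MvPolynomial (Fin (n+1)) k) →ₗ[MvPolynomial (Fin (n+1)) k]
      (MvPolynomial (Fin (n+1)) k ⧸ I) :=
    (Submodule.mkQ I).comp (∑ a : Fin (h 0), LinearMap.proj a)
  have hu : ∀ a b : Fin (h 0), a = b := by
    intro a b
    apply Fin.ext
    have := a.2
    have := b.2
    omega
  have ha0 : 0 < h 0 := by omega
  have hπ1 : ∀ v, π v = Submodule.mkQ I (v ⟨0, ha0⟩) := by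
    intro v
    change Submodule.mkQ I ((∑ a : Fin (h 0), LinearMap.proj a : _ →ₗ[_] _) v) = _
    congr 1
    rw [LinearMap.sum_apply, Finset.sum_eq_single ⟨0, ha0⟩]
    · rfl
    · intro b _ hb
      exact absurd (hu b _) hb
    · intro h5
      exact absurd (Finset.mem_univ _) h5
  have hπs : Function.Surjective π := by
    intro q
    obtain ⟨q, rfl⟩ := Submodule.mkQ_surjective I q
    exact ⟨fun _ => q, hπ1 _⟩
  have hker : LinearMap.range (D 0) = LinearMap.ker π := by
    ext v
    rw [hr, LinearMap.mem_ker, hπ1, Submodule.mkQ_apply, Submodule.Quotient.mk_eq_zero]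
    constructor
    · intro h1
      exact h1 _
    · intro h1 a
      rw [hu a ⟨0, ha0⟩]
      exact h1
  have := length_tor h D (Ideal.span (Set.range (X : Fin (n+1) → MvPolynomial (Fin (n+1)) k)))
    (fun i x y => mem_vars _ (hmin i x y)) hex π hπs hker (i + 1)
  rw [this, length_res, mul_one]

end Pool.Agent.R688.BT
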