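import Pool.Agent.R688.BT.Min

set_option autoImplicit false

open Finset MvPolynomial

/-!
# The ranks of the scalar matrices for the semigroups `S_{2,4}` and `S_{2,5}`
-/

namespace Pool.Agent.R688.BT

open Pool.Agent.Helper816 Pool.Agent.Helper816.Count Pool.Agent.Helper816.Koszul
  Pool.Agent.Helper816.Phi Pool.Agent.Helper816.Reso Pool.Agent.Helper816.Minimalize
  Pool.Agent.Helper816.Cst Pool.Agent.Helper816.Rank Pool.Agent.Helper816.Aring

/-- the combinatorial data: `w`, `w'` are the Apéry elements of degree two, and the only pairs of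
generators with sum in the Apéry set are `(a, a)` and `(a, b)` -/
structure Dat (N : ℕ) (g : Fin (N + 1) → ℕ) where
  Ap : Finset ℕ
  a : Fin N
  b : Fin N
  w : ℕ
  w' : ℕ
  hab : a ≠ b
  hg : StrictMono g
  h0 : 0 < g 0
  z_mem : 0 ∈ Ap
  g_mem : ∀ j : Fin N, g j.succ ∈ Ap
  w_mem : w ∈ Ap
  w'_mem : w' ∈ Ap
  cases : ∀ s ∈ Ap, s = 0 ∨ (∃ j : Fin N, s = g j.succ) ∨ s = w ∨ s = w'
  gw : ∀ j : Fin N, g j.succ < w
  gw' : ∀ j : Fin N, g j.succ < w'
  ww' : w ≠ w'
  /-- no generator is the sum of two -/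
  gg : ∀ i j l : Fin N, g i.succ + g j.succ ≠ g l.succ
  sw : ∀ i j : Fin N, g i.succ + g j.succ = w ↔ i = a ∧ j = a
  sw' : ∀ i j : Fin N, g i.succ + g j.succ = w' ↔ (i = a ∧ j = b) ∨ (i = b ∧ j = a)
  wlt : ∀ j : Fin N, w + g j.succ ≠ w'
  wlt' : ∀ j : Fin N, w' + g j.succ ≠ w

variable {N : ℕ} {g : Fin (N + 1) → ℕ} (T : Dat N g) (k : Type) [Field k]

namespace Dat

/-- the elements of the Apéry set -/
def Z : T.Ap := ⟨0, T.z_mem⟩
/-- the generators -/
def G (j : Fin N) : T.Ap := ⟨g j.succ, T.g_mem j⟩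
/-- `w` -/
def W : T.Ap := ⟨T.w, T.w_mem⟩
/-- `w'` -/
def W' : T.Ap := ⟨T.w', T.w'_mem⟩

include T in
theorem gpos (j : Fin N) : 0 < g j.succ :=
  lt_of_lt_of_le T.h0 (T.hg.monotone (Fin.zero_le _))

theorem wpos : 0 < T.w := lt_trans (T.gpos T.a) (T.gw T.a)
theorem w'pos : 0 < T.w' := lt_trans (T.gpos T.a) (T.gw' T.a)

theorem G_inj {i j : Fin N} (h : T.G i = T.G j) : i = j := by
  have h1 : g i.succ = g j.succ := congrArg (fun s : T.Ap => s.1) h
  exact Fin.succ_injective _ (T.hg.injective h1)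

theorem G_ne_Z (j : Fin N) : T.G j ≠ T.Z := by
  intro h
  have h1 : g j.succ = 0 := congrArg (fun s : T.Ap => s.1) h
  have := T.gpos j
  omega

theorem G_ne_W (j : Fin N) : T.G j ≠ T.W := by
  intro h
  have h1 : g j.succ = T.w := congrArg (fun s : T.Ap => s.1) h
  have := T.gw j
  omega

theorem G_ne_W' (j : Fin N) : T.G j ≠ T.W' := by
  intro h
  have h1 : g j.succ = T.w' := congrArg (fun s : T.Ap => s.1) h
  have := T.gw' j
  omega

theorem W_ne_Z : T.W ≠ T.Z := by
  intro h
  have h1 : T.w = 0 := congrArg (fun s : T.Ap => s.1) h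
  have := T.wpos
  omega

theorem W'_ne_Z : T.W' ≠ T.Z := by
  intro h
  have h1 : T.w' = 0 := congrArg (fun s : T.Ap => s.1) h
  have := T.w'pos
  omega

theorem W_ne_W' : T.W ≠ T.W' := by
  intro h
  exact T.ww' (congrArg (fun s : T.Ap => s.1) h)

theorem cases' (s : T.Ap) : s = T.Z ∨ (∃ j, s = T.G j) ∨ s = T.W ∨ s = T.W' := by
  obtain ⟨s, hs⟩ := s
  rcases T.cases s hs with h | ⟨j, h⟩ | h | h
  · exact Or.inl (Subtype.ext h)
  · exact Or.inr (Or.inl ⟨j, Subtype.ext h⟩)
  · exact Or.inr (Or.inr (Or.inl (Subtype.ext h)))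
  · exact Or.inr (Or.inr (Or.inr (Subtype.ext h)))

/-- subsets of a given size -/
abbrev FF (N i : ℕ) : Type := {F : Finset (Fin N) // F.card = i}

/-- the scalar matrix -/
noncomputable abbrev dl (i : ℕ) : (XX N T.Ap (i + 1) → k) →ₗ[k] (XX N T.Ap i → k) :=
  cst (DD k g T.Ap i)

theorem dl_Z (i : ℕ) (v : XX N T.Ap (i + 1) → k) (F : FF N i) : T.dl k i v (T.Z, F) = 0 := by
  rw [cst_DD]
  refine Finset.sum_eq_zero fun j _ => ?_
  by_cases h : j ∈ F.1
  · rw [dif_neg (by simpa using h)]
  · rw [dif_pos h, Finset.sum_eq_zero, neg_zero, mul_zero]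
    intro s _
    rw [if_neg]
    change ¬ (0 = s.1 + g j.succ)
    have := T.gpos j
    omega

theorem dl_G (i : ℕ) (v : XX N T.Ap (i + 1) → k) (l : Fin N) (F : FF N i) :
    T.dl k i v (T.G l, F) =
      if h : l ∉ F.1 then - (ksign k l F.1 * v (T.Z, ins F l h)) else 0 := by
  rw [cst_DD, Finset.sum_eq_single l]
  · by_cases h : l ∈ F.1
    · rw [dif_neg (by simpa using h), dif_neg (by simpa using h)]
    · rw [dif_pos h, dif_pos h, Finset.sum_eq_single T.Z, if_pos, mul_neg]
      · change g l.succ = 0 + g l.succ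
        rw [zero_add]
      · intro s _ hs
        rw [if_neg]
        change ¬ (g l.succ = s.1 + g l.succ)
        intro h1
        apply hs
        apply Subtype.ext
        change s.1 = 0
        omega
      · intro h5
        exact absurd (Finset.mem_univ _) h5
  · intro j _ hj
    by_cases h : j ∈ F.1
    · rw [dif_neg (by simpa using h)]
    · rw [dif_pos h, Finset.sum_eq_zero, neg_zero, mul_zero]
      intro s _
      rw [if_neg]
      change ¬ (g l.succ = s.1 + g j.succ)
      intro h1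
      rcases T.cases s.1 s.2 with h2 | ⟨m, h2⟩ | h2 | h2
      · rw [h2, zero_add] at h1
        exact hj (Fin.succ_injective _ (T.hg.injective h1)).symm
      · rw [h2] at h1
        exact T.gg m j l h1.symm
      · have := T.gw l
        omega
      · have := T.gw' l
        omega
  · intro h5
    exact absurd (Finset.mem_univ _) h5

theorem dl_W (i : ℕ) (v : XX N T.Ap (i + 1) → k) (F : FF N i) :
    T.dl k i v (T.W, F) =
      if h : T.a ∉ F.1 then - (ksign k T.a F.1 * v (T.G T.a, ins F T.a h)) else 0 := by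
  have key : ∀ (j : Fin N) (s : T.Ap), T.w = s.1 + g j.succ → s = T.G T.a ∧ j = T.a := by
    intro j s h1
    rcases T.cases s.1 s.2 with h2 | ⟨m, h2⟩ | h2 | h2
    · have := T.gw j
      omega
    · rw [h2] at h1
      obtain ⟨h3, h4⟩ := (T.sw m j).1 h1.symm
      subst h3
      exact ⟨Subtype.ext h2, h4⟩
    · have := T.gpos j
      omega
    · rw [h2] at h1
      exact absurd h1.symm (T.wlt' j)
  rw [cst_DD, Finset.sum_eq_single T.a]
  · by_cases h : T.a ∈ F.1
    · rw [dif_neg (by simpa using h), dif_neg (by simpa using h)]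
    · rw [dif_pos h, dif_pos h, Finset.sum_eq_single (T.G T.a), if_pos, mul_neg]
      · exact ((T.sw T.a T.a).2 ⟨rfl, rfl⟩).symm
      · intro s _ hs
        rw [if_neg]
        intro h1
        exact hs (key _ _ h1).1
      · intro h5
        exact absurd (Finset.mem_univ _) h5
  · intro j _ hj
    by_cases h : j ∈ F.1
    · rw [dif_neg (by simpa using h)]
    · rw [dif_pos h, Finset.sum_eq_zero, neg_zero, mul_zero]
      intro s _
      rw [if_neg]
      intro h1
      exact hj (key _ _ h1).2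
  · intro h5
    exact absurd (Finset.mem_univ _) h5

theorem dl_W' (i : ℕ) (v : XX N T.Ap (i + 1) → k) (F : FF N i) :
    T.dl k i v (T.W', F) =
      (if h : T.a ∉ F.1 then - (ksign k T.a F.1 * v (T.G T.b, ins F T.a h)) else 0) +
      (if h : T.b ∉ F.1 then - (ksign k T.b F.1 * v (T.G T.a, ins F T.b h)) else 0) := by
  have key : ∀ (j : Fin N) (s : T.Ap), T.w' = s.1 + g j.succ →
      (s = T.G T.a ∧ j = T.b) ∨ (s = T.G T.b ∧ j = T.a) := by
    intro j s h1
    rcases T.cases s.1 s.2 with h2 | ⟨m, h2⟩ | h2 | h2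
    · have := T.gw' j
      omega
    · rw [h2] at h1
      rcases (T.sw' m j).1 h1.symm with ⟨h3, h4⟩ | ⟨h3, h4⟩
      · subst h3
        exact Or.inl ⟨Subtype.ext h2, h4⟩
      · subst h3
        exact Or.inr ⟨Subtype.ext h2, h4⟩
    · rw [h2] at h1
      exact absurd h1.symm (T.wlt j)
    · have := T.gpos j
      omega
  have hGab : T.G T.a ≠ T.G T.b := fun h => T.hab (T.G_inj h)
  rw [cst_DD, Finset.sum_eq_add T.a T.b T.hab]
  · congr 1
    · by_cases h : T.a ∈ F.1
      · rw [dif_neg (by simpa using h), dif_neg (by simpa using h)]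
      · rw [dif_pos h, dif_pos h, Finset.sum_eq_single (T.G T.b), if_pos, mul_neg]
        · exact ((T.sw' T.b T.a).2 (Or.inr ⟨rfl, rfl⟩)).symm
        · intro s _ hs
          rw [if_neg]
          intro h1
          rcases key _ _ h1 with ⟨h3, h4⟩ | ⟨h3, h4⟩
          · exact T.hab h4
          · exact hs h3
        · intro h5
          exact absurd (Finset.mem_univ _) h5
    · by_cases h : T.b ∈ F.1
      · rw [dif_neg (by simpa using h), dif_neg (by simpa using h)]
      · rw [dif_pos h, dif_pos h, Finset.sum_eq_single (T.G T.a), if_pos, mul_neg]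
        · exact ((T.sw' T.a T.b).2 (Or.inl ⟨rfl, rfl⟩)).symm
        · intro s _ hs
          rw [if_neg]
          intro h1
          rcases key _ _ h1 with ⟨h3, h4⟩ | ⟨h3, h4⟩
          · exact hs h3
          · exact T.hab h4.symm
        · intro h5
          exact absurd (Finset.mem_univ _) h5
  · intro j _ hj
    by_cases h : j ∈ F.1
    · rw [dif_neg (by simpa using h)]
    · rw [dif_pos h, Finset.sum_eq_zero, neg_zero, mul_zero]
      intro s _
      rw [if_neg]
      intro h1
      rcases key _ _ h1 with ⟨h3, h4⟩ | ⟨h3, h4⟩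
      · exact hj.2 h4
      · exact hj.1 h4
  · intro h5
    exact absurd (Finset.mem_univ _) h5
  · intro h5
    exact absurd (Finset.mem_univ _) h5

end Dat

end Pool.Agent.R688.BT
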