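import Pool.Agent.R688.BT.Rk

set_option autoImplicit false

open Finset MvPolynomial

/-!
# The ranks of the scalar matrices: lower and upper bound
-/

namespace Pool.Agent.R688.BT

open Pool.Agent.Helper816 Pool.Agent.Helper816.Count Pool.Agent.Helper816.Koszul
  Pool.Agent.Helper816.Phi Pool.Agent.Helper816.Reso Pool.Agent.Helper816.Minimalize
  Pool.Agent.Helper816.Cst Pool.Agent.Helper816.Rank Pool.Agent.Helper816.Aring

variable {N : ℕ} {g : Fin (N + 1) → ℕ} (T : Dat N g) (k : Type) [Field k]

namespace Dat

/-- subsets of size `i` without `a` -/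
abbrev FA (i : ℕ) : Type := {F : Finset (Fin N) // F ∈ powersetCard i (univ.erase T.a)}

/-- the index type -/
abbrev JJ (i : ℕ) : Type := FF N (i + 1) ⊕ (T.FA i × Bool)

theorem FA_notMem {i : ℕ} (F : T.FA i) : T.a ∉ F.1 := by
  intro h
  have := (mem_powersetCard.1 F.2).1 h
  exact notMem_erase _ _ this

theorem FA_card {i : ℕ} (F : T.FA i) : F.1.card = i := (mem_powersetCard.1 F.2).2

/-- as an element of `FF` -/
def toFF {i : ℕ} (F : T.FA i) : FF N i := ⟨F.1, T.FA_card F⟩

/-- the inclusion -/
def inc (i : ℕ) : T.JJ i → XX N T.Ap (i + 1)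
  | Sum.inl F => (T.Z, F)
  | Sum.inr (F, false) => (T.G T.a, ins (T.toFF F) T.a (T.FA_notMem F))
  | Sum.inr (F, true) => (T.G T.b, ins (T.toFF F) T.a (T.FA_notMem F))

theorem ins_inj {i : ℕ} {E F : FF N i} {j : Fin N} (hE : j ∉ E.1) (hF : j ∉ F.1)
    (h : ins E j hE = ins F j hF) : E = F := by
  apply Subtype.ext
  have h1 : insert j E.1 = insert j F.1 := congrArg Subtype.val h
  have h2 := congrArg (fun s => Finset.erase s j) h1
  rwa [Finset.erase_insert hE, Finset.erase_insert hF] at h2

theorem toFF_inj {i : ℕ} {E F : T.FA i} (h : T.toFF E = T.toFF F) : E = F := by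
  apply Subtype.ext
  have h1 : (T.toFF E).1 = (T.toFF F).1 := congrArg Subtype.val h
  exact h1

theorem inc_inj (i : ℕ) : Function.Injective (T.inc i) := by
  have hab : T.G T.a ≠ T.G T.b := fun h => T.hab (T.G_inj h)
  rintro (F | ⟨F, _ | _⟩) (E | ⟨E, _ | _⟩) h
  · exact congrArg Sum.inl (congrArg Prod.snd h)
  · exact absurd (congrArg Prod.fst h).symm (T.G_ne_Z _)
  · exact absurd (congrArg Prod.fst h).symm (T.G_ne_Z _)
  · exact absurd (congrArg Prod.fst h) (T.G_ne_Z _)
  · have h1 := ins_inj (T.FA_notMem F) (T.FA_notMem E) (congrArg Prod.snd h)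
    rw [T.toFF_inj h1]
  · exact absurd (congrArg Prod.fst h) hab
  · exact absurd (congrArg Prod.fst h) (T.G_ne_Z _)
  · exact absurd (congrArg Prod.fst h).symm hab
  · have h1 := ins_inj (T.FA_notMem F) (T.FA_notMem E) (congrArg Prod.snd h)
    rw [T.toFF_inj h1]

theorem card_FA (i : ℕ) : Fintype.card (T.FA i) = (N - 1).choose i := by
  rw [Fintype.card_coe, card_powersetCard, card_erase_of_mem (mem_univ _), card_univ,
    Fintype.card_fin]

theorem card_JJ (i : ℕ) : Fintype.card (T.JJ i) = N.choose (i + 1) + 2 * (N - 1).choose i := by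
  rw [Fintype.card_sum, Fintype.card_prod, T.card_FA, Fintype.card_bool, Fintype.card_finset_len,
    Fintype.card_fin]
  ring

theorem ksign_ne {j : Fin N} (G : Finset (Fin N)) : ksign k j G ≠ 0 := by
  unfold ksign
  exact pow_ne_zero _ (neg_ne_zero.2 one_ne_zero)

theorem ksign_sq {j : Fin N} (G : Finset (Fin N)) : ksign k j G * ksign k j G = 1 := by
  unfold ksign
  rw [← pow_add, ← two_mul, pow_mul, neg_one_sq, one_pow]

theorem ins_erase {i : ℕ} {F : FF N (i + 1)} {j : Fin N} (hj : j ∈ F.1) :
    ∃ (E : FF N i) (hE : j ∉ E.1), F = ins E j hE := by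
  refine ⟨⟨F.1.erase j, ?_⟩, notMem_erase _ _, ?_⟩
  · rw [card_erase_of_mem hj, F.2]; rfl
  · apply Subtype.ext
    exact (insert_erase hj).symm

theorem exists_FA {i : ℕ} (E : FF N i) (hE : T.a ∉ E.1) : ∃ E' : T.FA i, T.toFF E' = E := by
  refine ⟨⟨E.1, ?_⟩, rfl⟩
  rw [mem_powersetCard]
  refine ⟨?_, E.2⟩
  intro x hx
  rw [mem_erase]
  refine ⟨?_, mem_univ _⟩
  rintro rfl
  exact hE hx

theorem rank_lower (i : ℕ) : Fintype.card (T.JJ i) ≤
    Module.finrank k (LinearMap.range (T.dl k i)) := by
  refine rank_ge (T.dl k i) (T.inc i) (T.inc_inj i) ?_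
  intro v hv hδ
  have eq := fun y => congrFun hδ y
  have hGa1 : ∀ (E : FF N i) (hE : T.a ∉ E.1), v (T.G T.a, ins E T.a hE) = 0 := by
    intro E hE
    have h1 := eq (T.W, E)
    rw [T.dl_W, dif_pos hE] at h1
    rcases mul_eq_zero.1 (neg_eq_zero.1 h1) with h2 | h2
    · exact absurd h2 (ksign_ne k _)
    · exact h2
  have hGa : ∀ F : FF N (i + 1), v (T.G T.a, F) = 0 := by
    intro F
    by_cases h : T.a ∈ F.1
    · obtain ⟨E, hE, rfl⟩ := ins_erase h
      exact hGa1 E hE
    · apply hv
      rintro ⟨(E | ⟨E, _ | _⟩), hE⟩
      · exact T.G_ne_Z _ (congrArg Prod.fst hE).symm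
      · apply h
        have h1 : ins (T.toFF E) T.a (T.FA_notMem E) = F := congrArg Prod.snd hE
        rw [← h1]
        exact mem_insert_self _ _
      · exact T.hab (T.G_inj (congrArg Prod.fst hE)).symm
  have hGb : ∀ (E : FF N i) (hE : T.a ∉ E.1), v (T.G T.b, ins E T.a hE) = 0 := by
    intro E hE
    have h1 := eq (T.W', E)
    rw [T.dl_W', dif_pos hE] at h1
    have h3 : (if h : T.b ∉ E.1 then
        - (ksign k T.b E.1 * v (T.G T.a, ins E T.b h)) else 0) = 0 := by
      split_ifs with h
      · rfl
      · rw [hGa, mul_zero, neg_zero]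
    rw [h3, add_zero] at h1
    rcases mul_eq_zero.1 (neg_eq_zero.1 h1) with h2 | h2
    · exact absurd h2 (ksign_ne k _)
    · exact h2
  have hZ : ∀ F : FF N (i + 1), v (T.Z, F) = 0 := by
    intro F
    obtain ⟨j, hj⟩ : F.1.Nonempty := by
      rw [← Finset.card_pos, F.2]
      exact Nat.succ_pos i
    obtain ⟨E, hE, rfl⟩ := ins_erase hj
    have h1 := eq (T.G j, E)
    rw [T.dl_G, dif_pos hE] at h1
    rcases mul_eq_zero.1 (neg_eq_zero.1 h1) with h2 | h2
    · exact absurd h2 (ksign_ne k _)
    · exact h2
  funext x
  by_cases hx : x ∈ Set.range (T.inc i)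
  · obtain ⟨(F | ⟨F, _ | _⟩), rfl⟩ := hx
    · exact hZ F
    · exact hGa _
    · exact hGb _ _
  · exact hv x hx

/-- two vectors with the same relevant coordinates have the same image -/
theorem dl_congr (i : ℕ) (u v : XX N T.Ap (i + 1) → k)
    (hZ : ∀ F, u (T.Z, F) = v (T.Z, F))
    (hW : ∀ (E : FF N i) (hE : T.a ∉ E.1),
      u (T.G T.a, ins E T.a hE) = v (T.G T.a, ins E T.a hE))
    (hW' : ∀ E : FF N i,
      (if h : T.a ∉ E.1 then - (ksign k T.a E.1 * u (T.G T.b, ins E T.a h)) else 0) +
      (if h : T.b ∉ E.1 then - (ksign k T.b E.1 * u (T.G T.a, ins E T.b h)) else 0) =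
      (if h : T.a ∉ E.1 then - (ksign k T.a E.1 * v (T.G T.b, ins E T.a h)) else 0) +
      (if h : T.b ∉ E.1 then - (ksign k T.b E.1 * v (T.G T.a, ins E T.b h)) else 0)) :
    T.dl k i u = T.dl k i v := by
  funext ⟨s, E⟩
  rcases T.cases' s with rfl | ⟨j, rfl⟩ | rfl | rfl
  · rw [T.dl_Z, T.dl_Z]
  · rw [T.dl_G, T.dl_G]
    by_cases h : j ∈ E.1
    · rw [dif_neg (by simpa using h), dif_neg (by simpa using h)]
    · rw [dif_pos h, dif_pos h, hZ]
  · rw [T.dl_W, T.dl_W]
    by_cases h : T.a ∈ E.1
    · rw [dif_neg (by simpa using h), dif_neg (by simpa using h)]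
    · rw [dif_pos h, dif_pos h, hW]
  · rw [T.dl_W', T.dl_W', hW']

theorem dl_eq_zero (i : ℕ) (v : XX N T.Ap (i + 1) → k)
    (hZ : ∀ F, v (T.Z, F) = 0)
    (ha : ∀ F, v (T.G T.a, F) = 0)
    (hb : ∀ (E : FF N i) (hE : T.a ∉ E.1), v (T.G T.b, ins E T.a hE) = 0) :
    T.dl k i v = 0 := by
  rw [← map_zero (T.dl k i)]
  refine T.dl_congr k i v 0 (fun F => hZ F) (fun E hE => ha _) (fun E => ?_)
  congr 1
  · by_cases h : T.a ∈ E.1
    · rw [dif_neg (by simpa using h), dif_neg (by simpa using h)]
    · rw [dif_pos h, dif_pos h, hb]; rfl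
  · by_cases h : T.b ∈ E.1
    · rw [dif_neg (by simpa using h), dif_neg (by simpa using h)]
    · rw [dif_pos h, dif_pos h, ha]; rfl

theorem single_ne {X : Type} [DecidableEq X] {x y : X} (h : y ≠ x) :
    (Pi.single x (1 : k) : X → k) y = 0 := Pi.single_eq_of_ne h 1

/-- extension by zero -/
noncomputable def ex (i : ℕ) : (T.JJ i → k) →ₗ[k] (XX N T.Ap (i + 1) → k) :=
  Function.ExtendByZero.linearMap k (T.inc i)

theorem ex_single (i : ℕ) [DecidableEq (T.JJ i)] (j : T.JJ i) :
    T.ex k i (Pi.single j 1) = Pi.single (T.inc i j) 1 := by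
  have h1 : T.ex k i (Pi.single j 1) = Function.extend (T.inc i) (Pi.single j 1) 0 := rfl
  rw [h1]
  funext x
  by_cases hx : ∃ l, T.inc i l = x
  · obtain ⟨l, rfl⟩ := hx
    rw [(T.inc_inj i).extend_apply]
    by_cases hl : l = j
    · rw [hl, Pi.single_eq_same, Pi.single_eq_same]
    · rw [Pi.single_eq_of_ne hl, Pi.single_eq_of_ne (fun h => hl (T.inc_inj i h))]
  · rw [Function.extend_apply' _ _ _ hx, Pi.single_eq_of_ne]
    · rfl
    · rintro rfl
      exact hx ⟨j, rfl⟩

theorem rank_upper (i : ℕ) :
    Module.finrank k (LinearMap.range (T.dl k i)) ≤ Fintype.card (T.JJ i) := by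
  classical
  have key : ∀ x : XX N T.Ap (i + 1), T.dl k i (Pi.single x 1) ∈
      LinearMap.range ((T.dl k i).comp (T.ex k i)) := by
    have hJ : ∀ j : T.JJ i, T.dl k i (Pi.single (T.inc i j) 1) ∈
        LinearMap.range ((T.dl k i).comp (T.ex k i)) := by
      intro j
      refine ⟨Pi.single j 1, ?_⟩
      rw [LinearMap.comp_apply, T.ex_single]
    have hb : ∀ (E : FF N i) (hE : T.a ∉ E.1),
        T.dl k i (Pi.single (T.G T.b, ins E T.a hE) 1) ∈
        LinearMap.range ((T.dl k i).comp (T.ex k i)) := by
      intro E hE
      obtain ⟨E', rfl⟩ := T.exists_FA E hE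
      exact hJ (Sum.inr (E', true))
    have hab : T.G T.a ≠ T.G T.b := fun h => T.hab (T.G_inj h)
    -- the elements mapped to zero
    have hzero : ∀ x : XX N T.Ap (i + 1), x.1 ≠ T.Z → x.1 ≠ T.G T.a →
        (x.1 = T.G T.b → T.a ∉ x.2.1) → T.dl k i (Pi.single x 1) = 0 := by
      intro x h1 h2 h3
      apply T.dl_eq_zero
      · intro F
        exact single_ne k (fun h => h1 (congrArg Prod.fst h).symm)
      · intro F
        exact single_ne k (fun h => h2 (congrArg Prod.fst h).symm)
      · intro E hE
        refine single_ne k (fun h => ?_)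
        apply h3 (congrArg Prod.fst h).symm
        rw [← congrArg Prod.snd h]
        exact mem_insert_self _ _
    rintro ⟨s, F⟩
    rcases T.cases' s with rfl | ⟨j, rfl⟩ | rfl | rfl
    · exact hJ (Sum.inl F)
    · by_cases hja : j = T.a
      · subst hja
        by_cases hF : T.a ∈ F.1
        · obtain ⟨E, hE, rfl⟩ := ins_erase hF
          obtain ⟨E', rfl⟩ := T.exists_FA E hE
          exact hJ (Sum.inr (E', false))
        · by_cases hFb : T.b ∈ F.1
          · obtain ⟨E, hE, rfl⟩ := ins_erase hFb
            have hEa : T.a ∉ E.1 := fun h => hF (mem_insert_of_mem h)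
            have h1 : T.dl k i (Pi.single (T.G T.a, ins E T.b hE) 1) =
                (ksign k T.b E.1 * ksign k T.a E.1) •
                  T.dl k i (Pi.single (T.G T.b, ins E T.a hEa) 1) := by
              rw [← map_smul]
              apply T.dl_congr
              · intro F
                rw [Pi.smul_apply, single_ne k (fun h => T.G_ne_Z _ (congrArg Prod.fst h).symm),
                  single_ne k (fun h => T.G_ne_Z _ (congrArg Prod.fst h).symm), smul_zero]
              · intro D hD
                have r : (Pi.single (T.G T.b, ins E T.a hEa) (1 : k) : XX N T.Ap (i + 1) → k)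
                    (T.G T.a, ins D T.a hD) = 0 :=
                  single_ne k (fun h => hab (congrArg Prod.fst h))
                rw [Pi.smul_apply, r, smul_zero]
                refine single_ne k (fun h => ?_)
                apply hF
                have h1 : ins D T.a hD = ins E T.b hE := congrArg Prod.snd h
                rw [← h1]
                exact mem_insert_self _ _
              · intro D
                by_cases hDE : D = E
                · subst hDE
                  rw [dif_pos hEa, dif_pos hE, dif_pos hEa, dif_pos hE, Pi.smul_apply,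
                    Pi.smul_apply, single_ne k (fun h => hab (congrArg Prod.fst h).symm),
                    Pi.single_eq_same, Pi.single_eq_same,
                    single_ne k (fun h => hab (congrArg Prod.fst h))]
                  simp only [smul_zero, mul_zero, neg_zero, zero_add, add_zero, smul_eq_mul,
                    mul_one]
                  linear_combination (ksign k T.b D.1) * (ksign_sq k (j := T.a) D.1)
                · have e1 : (if h : T.a ∉ D.1 then - (ksign k T.a D.1 *
                      (Pi.single (T.G T.a, ins E T.b hE) (1 : k) : XX N T.Ap (i + 1) → k)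
                        (T.G T.b, ins D T.a h)) else 0) = 0 := by
                    split_ifs with h
                    · rfl
                    · rw [single_ne k (fun h => hab (congrArg Prod.fst h).symm), mul_zero, neg_zero]
                  have e2 : (if h : T.b ∉ D.1 then - (ksign k T.b D.1 *
                      (Pi.single (T.G T.a, ins E T.b hE) (1 : k) : XX N T.Ap (i + 1) → k)
                        (T.G T.a, ins D T.b h)) else 0) = 0 := by
                    split_ifs with h
                    · rfl
                    · rw [single_ne k (fun h2 => hDE (ins_inj h hE (congrArg Prod.snd h2))),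
                        mul_zero, neg_zero]
                  have e3 : (if h : T.a ∉ D.1 then - (ksign k T.a D.1 *
                      ((ksign k T.b E.1 * ksign k T.a E.1) •
                        (Pi.single (T.G T.b, ins E T.a hEa) (1 : k) : XX N T.Ap (i + 1) → k))
                        (T.G T.b, ins D T.a h)) else 0) = 0 := by
                    split_ifs with h
                    · rfl
                    · rw [Pi.smul_apply, single_ne k
                        (fun h2 => hDE (ins_inj h hEa (congrArg Prod.snd h2))), smul_zero,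
                        mul_zero, neg_zero]
                  have e4 : (if h : T.b ∉ D.1 then - (ksign k T.b D.1 *
                      ((ksign k T.b E.1 * ksign k T.a E.1) •
                        (Pi.single (T.G T.b, ins E T.a hEa) (1 : k) : XX N T.Ap (i + 1) → k))
                        (T.G T.a, ins D T.b h)) else 0) = 0 := by
                    split_ifs with h
                    · rfl
                    · rw [Pi.smul_apply, single_ne k (fun h => hab (congrArg Prod.fst h)),
                        smul_zero, mul_zero, neg_zero]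
                  rw [e1, e2, e3, e4]
            rw [h1]
            exact Submodule.smul_mem _ _ (hb E hEa)
          · have h1 : T.dl k i (Pi.single (T.G T.a, F) 1) = 0 := by
              rw [← map_zero (T.dl k i)]
              apply T.dl_congr
              · intro F'
                exact single_ne k (fun h => T.G_ne_Z _ (congrArg Prod.fst h).symm)
              · intro E hE
                refine single_ne k (fun h => ?_)
                apply hF
                have h1 : ins E T.a hE = F := congrArg Prod.snd h
                rw [← h1]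
                exact mem_insert_self _ _
              · intro E
                congr 1
                · split_ifs with h
                  · rfl
                  · rw [single_ne k (fun h => hab (congrArg Prod.fst h).symm)]; rfl
                · split_ifs with h
                  · rfl
                  · rw [single_ne k (fun h2 => ?_)]
                    · rfl
                    · apply hFb
                      have h1 : ins E T.b h = F := congrArg Prod.snd h2
                      rw [← h1]
                      exact mem_insert_self _ _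
            rw [h1]
            exact zero_mem _
      · by_cases hF : j = T.b ∧ T.a ∈ F.1
        · obtain ⟨rfl, hF⟩ := hF
          obtain ⟨E, hE, rfl⟩ := ins_erase hF
          exact hb E hE
        · rw [hzero (T.G j, F) (T.G_ne_Z j) (fun h => hja (T.G_inj h))
            (fun h h2 => hF ⟨T.G_inj h, h2⟩)]
          exact zero_mem _
    · rw [hzero (T.W, F) T.W_ne_Z (fun h => T.G_ne_W _ h.symm)
        (fun h _ => T.G_ne_W _ h.symm)]
      exact zero_mem _
    · rw [hzero (T.W', F) T.W'_ne_Z (fun h => T.G_ne_W' _ h.symm)
        (fun h _ => T.G_ne_W' _ h.symm)]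
      exact zero_mem _
  have hle : LinearMap.range (T.dl k i) ≤ LinearMap.range ((T.dl k i).comp (T.ex k i)) := by
    rintro _ ⟨v, rfl⟩
    have h2 : v = ∑ x, v x • (Pi.single x 1 : XX N T.Ap (i + 1) → k) := by
      funext z
      rw [Finset.sum_apply]
      simp [Pi.single_apply]
    rw [h2, map_sum]
    refine Submodule.sum_mem _ fun x _ => ?_
    rw [map_smul]
    exact Submodule.smul_mem _ _ (key x)
  refine (Submodule.finrank_mono hle).trans ?_
  refine (LinearMap.finrank_range_le _).trans ?_
  rw [Module.finrank_fintype_fun_eq_card]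

theorem rank_eq (i : ℕ) : Module.finrank k (LinearMap.range (cst (DD k g T.Ap i))) =
    N.choose (i + 1) + 2 * (N - 1).choose i := by
  rw [← T.card_JJ]
  exact le_antisymm (T.rank_upper k i) (T.rank_lower k i)

end Dat

end Pool.Agent.R688.BT
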