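import Pool.Agent.R688.BT.Rk2

set_option autoImplicit false

open Finset MvPolynomial

/-!
# The semigroups `S_{2,4}` and `S_{2,5}`
-/

namespace Pool.Agent.R688.BT

open Pool.Agent.Helper816 Pool.Agent.Helper816.Count Pool.Agent.Helper816.Koszul
  Pool.Agent.Helper816.Phi Pool.Agent.Helper816.Reso Pool.Agent.Helper816.Minimalize
  Pool.Agent.Helper816.Cst Pool.Agent.Helper816.Rank Pool.Agent.Helper816.Aring

section

variable {N e n : ℕ} (he : e = N + 3) (he6 : 6 ≤ e) (hn : n = 4 ∨ n = 5)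
  {g : Fin (N + 1) → ℕ} (hg : StrictMono g)
  (hr : ∀ s, (∃ i, g i = s) ↔ ∃ i < e, i ≠ 2 ∧ i ≠ n ∧ s = e + i)

include hr in
theorem g_ge (i : Fin (N + 1)) : e ≤ g i := by
  obtain ⟨j, _, _, _, h⟩ := (hr (g i)).1 ⟨i, rfl⟩
  omega

include he6 hn hg hr in
theorem g_zero : g 0 = e := by
  obtain ⟨i, hi⟩ := (hr e).2 ⟨0, by omega, by omega, by omega, rfl⟩
  have h1 := hg.monotone (Fin.zero_le i)
  have h2 := g_ge hr 0
  omega

include he6 hn hg hr in
theorem g_succ (j : Fin N) : ∃ i, 1 ≤ i ∧ i < e ∧ i ≠ 2 ∧ i ≠ n ∧ g j.succ = e + i := by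
  obtain ⟨i, h1, h2, h3, h4⟩ := (hr (g j.succ)).1 ⟨j.succ, rfl⟩
  have h5 := hg (Fin.succ_pos j)
  have h6 := g_zero he6 hn hg hr
  exact ⟨i, by omega, h1, h2, h3, h4⟩

include he6 hn hg hr in
theorem exists_succ (i : ℕ) (h1 : 1 ≤ i) (h2 : i < e) (h3 : i ≠ 2) (h4 : i ≠ n) :
    ∃ j : Fin N, g j.succ = e + i := by
  obtain ⟨l, hl⟩ := (hr (e + i)).2 ⟨i, h2, h3, h4, rfl⟩
  have h6 := g_zero he6 hn hg hr
  rcases Fin.eq_zero_or_eq_succ l with rfl | ⟨j, rfl⟩
  · omega
  · exact ⟨j, hl⟩

include hr in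
theorem mem_pos {s : ℕ} (hs : Mem g s) (h0 : s ≠ 0) :
    ∃ i, g i ≤ s ∧ Mem g (s - g i) := by
  obtain ⟨a, ha⟩ := hs
  obtain ⟨i, hi⟩ : ∃ i, 0 < a i := by
    by_contra hcon
    push_neg at hcon
    apply h0
    rw [← ha]
    unfold wt
    refine Finset.sum_eq_zero fun i _ => ?_
    have := hcon i
    have h1 : a i = 0 := by omega
    rw [h1, zero_mul]
  exact ⟨i, vx_iff.1 ⟨a, ha, hi, hi⟩⟩

include he6 hn hg hr in
theorem mem_iff (s : ℕ) : Mem g s ↔ s = 0 ∨ (∃ i, g i = s) ∨ 2 * e ≤ s := by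
  constructor
  · intro hs
    by_cases h0 : s = 0
    · exact Or.inl h0
    · obtain ⟨i, h1, h2⟩ := mem_pos hr hs h0
      by_cases h3 : s - g i = 0
      · exact Or.inr (Or.inl ⟨i, by omega⟩)
      · obtain ⟨j, h4, _⟩ := mem_pos hr h2 h3
        have := g_ge hr i
        have := g_ge hr j
        exact Or.inr (Or.inr (by omega))
  · have hbig : ∀ s, 2 * e ≤ s → Mem g s := by
      intro s
      induction s using Nat.strong_induction_on with
      | _ s ih =>
      intro hs
      by_cases h3 : 3 * e ≤ s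
      · have h4 := ih (s - e) (by omega) (by omega)
        have h5 : Mem g e := by
          have := mem_gen (g := g) 0
          rwa [g_zero he6 hn hg hr] at this
        have h6 := mem_add h4 h5
        rwa [Nat.sub_add_cancel (by omega)] at h6
      · have hgen : ∀ t, t < e → t ≠ 2 → t ≠ n → Mem g (e + t) := by
          intro t h4 h5 h6
          obtain ⟨l, hl⟩ := (hr (e + t)).2 ⟨t, h4, h5, h6, rfl⟩
          rw [← hl]
          exact mem_gen l
        have h1 := hgen 1 (by omega) (by omega) (by omega)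
        obtain ⟨t, ht⟩ : ∃ t, s = 2 * e + t := ⟨s - 2 * e, by omega⟩
        by_cases h4 : t = 2
        · have := mem_add h1 h1
          have h5 : e + 1 + (e + 1) = s := by omega
          rwa [h5] at this
        · by_cases h5 : t = n
          · have h6 := hgen (n - 1) (by omega) (by omega) (by omega)
            have := mem_add h1 h6
            have h7 : e + 1 + (e + (n - 1)) = s := by omega
            rwa [h7] at this
          · have h6 := hgen t (by omega) h4 h5
            have h8 := hgen 0 (by omega) (by omega) (by omega)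
            have := mem_add h8 h6
            have h7 : e + 0 + (e + t) = s := by omega
            rwa [h7] at this
    rintro (h | ⟨i, rfl⟩ | h)
    · rw [h]; exact mem_zero
    · exact mem_gen i
    · exact hbig s h

/-- the Apéry set -/
def apery (N e n : ℕ) (g : Fin (N + 1) → ℕ) : Finset ℕ :=
  insert 0 (insert (2 * e + 2) (insert (2 * e + n) (univ.image fun j : Fin N => g j.succ)))

theorem mem_apery (s : ℕ) : s ∈ apery N e n g ↔
    s = 0 ∨ s = 2 * e + 2 ∨ s = 2 * e + n ∨ ∃ j : Fin N, g j.succ = s := by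
  unfold apery
  simp only [mem_insert, mem_image, mem_univ, true_and]

include he he6 hn hg hr in
theorem card_apery : (apery N e n g).card = N + 3 := by
  unfold apery
  have hlt : ∀ j : Fin N, g j.succ < 2 * e := by
    intro j
    obtain ⟨i, h1, h2, h3, h4, h5⟩ := g_succ he6 hn hg hr j
    omega
  have hge : ∀ j : Fin N, 0 < g j.succ := by
    intro j
    have := g_ge hr j.succ
    omega
  rw [card_insert_of_notMem, card_insert_of_notMem, card_insert_of_notMem,
    card_image_of_injective, card_univ, Fintype.card_fin]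
  · intro i j hij
    exact Fin.succ_injective _ (hg.injective hij)
  · simp only [mem_image, mem_univ, true_and, not_exists]
    intro j hj
    have := hlt j
    omega
  · simp only [mem_insert, mem_image, mem_univ, true_and, not_or, not_exists]
    refine ⟨by omega, fun j hj => ?_⟩
    have := hlt j
    omega
  · simp only [mem_insert, mem_image, mem_univ, true_and, not_or, not_exists]
    refine ⟨by omega, by omega, fun j hj => ?_⟩
    have := hge j
    omega

include he6 hn hg hr in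
theorem hAp (s : ℕ) : s ∈ apery N e n g ↔ Mem g s ∧ ¬ Adj g s 0 0 := by
  have h0 := g_zero he6 hn hg hr
  rw [mem_apery, vx_iff, h0, mem_iff he6 hn hg hr s, mem_iff he6 hn hg hr (s - e)]
  constructor
  · rintro (rfl | rfl | rfl | ⟨j, rfl⟩)
    · exact ⟨Or.inl rfl, by omega⟩
    · refine ⟨Or.inr (Or.inr (by omega)), ?_⟩
      rintro ⟨-, h | ⟨i, hi⟩ | h⟩
      · omega
      · obtain ⟨t, h1, h2, h3, h4⟩ := (hr _).1 ⟨i, hi⟩
        omega
      · omega
    · refine ⟨Or.inr (Or.inr (by omega)), ?_⟩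
      rintro ⟨-, h | ⟨i, hi⟩ | h⟩
      · omega
      · obtain ⟨t, h1, h2, h3, h4⟩ := (hr _).1 ⟨i, hi⟩
        omega
      · omega
    · refine ⟨Or.inr (Or.inl ⟨_, rfl⟩), ?_⟩
      obtain ⟨i, h1, h2, h3, h4, h5⟩ := g_succ he6 hn hg hr j
      rintro ⟨-, h | ⟨l, hl⟩ | h⟩
      · omega
      · have := g_ge hr l
        omega
      · omega
  · rintro ⟨h | ⟨i, hi⟩ | h, h2⟩
    · exact Or.inl h
    · rcases Fin.eq_zero_or_eq_succ i with rfl | ⟨j, rfl⟩
      · exfalso
        apply h2
        exact ⟨by omega, Or.inl (by omega)⟩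
      · exact Or.inr (Or.inr (Or.inr ⟨j, hi⟩))
    · by_contra hcon
      push_neg at hcon
      obtain ⟨h3, h4, h5, h6⟩ := hcon
      apply h2
      refine ⟨by omega, ?_⟩
      by_cases h7 : 2 * e ≤ s - e
      · exact Or.inr (Or.inr h7)
      · right; left
        rw [hr]
        exact ⟨s - 2 * e, by omega, by omega, by omega, by omega⟩

include he6 hn hg hr in
/-- the combinatorial data -/
theorem exists_dat : ∃ T : Dat N g, T.Ap = apery N e n g := by
  obtain ⟨a, ha⟩ := exists_succ he6 hn hg hr 1 (by omega) (by omega) (by omega) (by omega)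
  obtain ⟨b, hb⟩ := exists_succ he6 hn hg hr (n - 1) (by omega) (by omega) (by omega) (by omega)
  have hinj : ∀ i j : Fin N, g i.succ = g j.succ → i = j :=
    fun i j h => Fin.succ_injective _ (hg.injective h)
  have hoff := g_succ he6 hn hg hr
  have h0 := g_zero he6 hn hg hr
  refine ⟨⟨apery N e n g, a, b, 2 * e + 2, 2 * e + n, ?_, hg, ?_, ?_, ?_, ?_, ?_, ?_, ?_, ?_, ?_,
    ?_, ?_, ?_, ?_, ?_⟩, rfl⟩
  · rintro rfl
    omega
  · omega
  · exact (mem_apery _).2 (Or.inl rfl)
  · intro j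
    exact (mem_apery _).2 (Or.inr (Or.inr (Or.inr ⟨j, rfl⟩)))
  · exact (mem_apery _).2 (Or.inr (Or.inl rfl))
  · exact (mem_apery _).2 (Or.inr (Or.inr (Or.inl rfl)))
  · intro s hs
    rcases (mem_apery s).1 hs with h | h | h | ⟨j, h⟩
    · exact Or.inl h
    · exact Or.inr (Or.inr (Or.inl h))
    · exact Or.inr (Or.inr (Or.inr h))
    · exact Or.inr (Or.inl ⟨j, h.symm⟩)
  · intro j
    obtain ⟨i, h1, h2, h3, h4, h5⟩ := hoff j
    omega
  · intro j
    obtain ⟨i, h1, h2, h3, h4, h5⟩ := hoff j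
    omega
  · omega
  · intro i j l
    obtain ⟨i', h1, h2, h3, h4, h5⟩ := hoff i
    obtain ⟨j', h1', h2', h3', h4', h5'⟩ := hoff j
    obtain ⟨l', h1'', h2'', h3'', h4'', h5''⟩ := hoff l
    omega
  · intro i j
    obtain ⟨i', h1, h2, h3, h4, h5⟩ := hoff i
    obtain ⟨j', h1', h2', h3', h4', h5'⟩ := hoff j
    constructor
    · intro h
      exact ⟨hinj _ _ (by omega), hinj _ _ (by omega)⟩
    · rintro ⟨rfl, rfl⟩
      omega
  · intro i j
    obtain ⟨i', h1, h2, h3, h4, h5⟩ := hoff i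
    obtain ⟨j', h1', h2', h3', h4', h5'⟩ := hoff j
    constructor
    · intro h
      by_cases hi : i' = 1
      · exact Or.inl ⟨hinj _ _ (by omega), hinj _ _ (by omega)⟩
      · exact Or.inr ⟨hinj _ _ (by omega), hinj _ _ (by omega)⟩
    · rintro (⟨rfl, rfl⟩ | ⟨rfl, rfl⟩) <;> omega
  · intro j
    obtain ⟨i, h1, h2, h3, h4, h5⟩ := hoff j
    omega
  · intro j
    obtain ⟨i, h1, h2, h3, h4, h5⟩ := hoff j
    omega

end

theorem choose_id (N i : ℕ) :
    (i + 1) * (N + 1).choose (i + 2) + N.choose (i + 2) = N * N.choose (i + 1) := by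
  have h1 : (N + 1).choose (i + 2) = N.choose (i + 1) + N.choose (i + 2) :=
    Nat.choose_succ_succ N (i + 1)
  have h2 := Nat.choose_succ_right_eq N (i + 1)
  rw [h1]
  by_cases h : i + 1 ≤ N
  · obtain ⟨d, hd⟩ : ∃ d, N = i + 1 + d := ⟨N - (i + 1), by omega⟩
    have h3 : N - (i + 1) = d := by omega
    rw [h3] at h2
    have h4 : (i + 1) * (N.choose (i + 1) + N.choose (i + 2)) + N.choose (i + 2) =
        (i + 1) * N.choose (i + 1) + N.choose (i + 1 + 1) * (i + 1 + 1) := by ring
    rw [h4, h2]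
    conv_rhs => rw [hd]
    have h5 : (i + 1 + d).choose (i + 1) = N.choose (i + 1) := by rw [hd]
    rw [h5]
    ring
  · rw [Nat.choose_eq_zero_of_lt (by omega : N < i + 1),
      Nat.choose_eq_zero_of_lt (by omega : N < i + 2)]
    simp

/-- the Betti numbers -/
theorem main (k : Type) [Field k] (M e n : ℕ) (hM : M + 2 = e) (he6 : 6 ≤ e)
    (hn : n = 4 ∨ n = 5) (g : Fin M → ℕ) (hg : StrictMono g)
    (hr : ∀ s, (∃ i, g i = s) ↔ ∃ i < e, i ≠ 2 ∧ i ≠ n ∧ s = e + i) (j : ℕ) (hj : 1 ≤ j) :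
    Module.length (MvPolynomial (Fin M) k)
        (((CategoryTheory.Tor' (ModuleCat.{0} (MvPolynomial (Fin M) k)) j).obj
          (ModuleCat.of (MvPolynomial (Fin M) k)
            (MvPolynomial (Fin M) k ⧸ RingHom.ker
              (MvPolynomial.aeval (R := k)
                (fun j : Fin M => (Polynomial.X : Polynomial k) ^ g j))))).obj
          (ModuleCat.of (MvPolynomial (Fin M) k)
            (MvPolynomial (Fin M) k ⧸
              Ideal.span (Set.range (X : Fin M → MvPolynomial (Fin M) k))))) =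
      ((j * M.choose (j + 1) : ℕ) : ℕ∞) := by
  obtain ⟨N, rfl⟩ : ∃ N, M = N + 1 := ⟨M - 1, by omega⟩
  obtain ⟨i, rfl⟩ : ∃ i, j = i + 1 := ⟨j - 1, by omega⟩
  obtain ⟨T, hT⟩ := exists_dat he6 hn hg hr
  have he : e = N + 3 := by omega
  have hpos : ∀ i, 0 < g i := by
    intro i
    have := g_ge hr i
    omega
  obtain ⟨b, hb1, hb2⟩ := length_tor_semigroup k N g hpos (apery N e n g)
    (hAp he6 hn hg hr) i
  rw [hb1]
  rw [← hT, T.rank_eq k i, T.rank_eq k (i + 1), hT, Fintype.card_prod,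
    Fintype.card_finset_len, Fintype.card_fin, Fintype.card_coe,
    card_apery he he6 hn hg hr] at hb2
  have h1 := choose_id N i
  obtain ⟨K, rfl⟩ : ∃ K, N = K + 1 := ⟨N - 1, by omega⟩
  have h2 : (K + 1).choose (i + 1) = K.choose i + K.choose (i + 1) := Nat.choose_succ_succ K i
  rw [Nat.add_sub_cancel] at hb2
  have h3 : b + (K + 1).choose (i + 2) = (K + 1) * (K + 1).choose (i + 1) := by
    have e1 : (K + 1).choose (i + 1 + 1) = (K + 1).choose (i + 2) := rfl
    rw [e1] at hb2
    nlinarith [hb2, h2]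
  have h4 : b = (i + 1) * (K + 1 + 1).choose (i + 2) := by omega
  rw [h4]

end Pool.Agent.R688.BT
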